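import Mathlib
import Pool.Agent.Run7.h35.EX.Stm

set_option autoImplicit false
open scoped BigOperators

namespace Run7.h331.EX

open Run7.h35.EX

theorem toReal1 : (1 : ENNReal).toReal = 1 := by simp

theorem summable_l1 {S : Type} (f : l1 S) : Summable fun i => |(f : ∀ _ : S, ℝ) i| := by
  have h := (lp.memℓp f).summable (by rw [toReal1]; norm_num)
  simpa using h

theorem norm_l1 {S : Type} (f : l1 S) : ‖f‖ = ∑' i, |(f : ∀ _ : S, ℝ) i| := by
  rw [lp.norm_eq_tsum_rpow (by rw [toReal1]; norm_num) f]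
  simp

theorem memlp1 {S : Type} (g : ∀ _ : S, ℝ) (h : Summable fun i => |g i|) :
    Memℓp g 1 := by
  apply memℓp_gen
  simpa using h

theorem t_BLK : S_BLK := by
  intro A B _ _ T M hT
  -- the family
  let G : l1 (Σ n, A n) → (∀ _ : (Σ n, B n), ℝ) := fun f p =>
    T p.1 (fun a => (f : ∀ _ : (Σ n, A n), ℝ) ⟨p.1, a⟩) p.2
  have hfib : ∀ f : l1 (Σ n, A n),
      Summable (fun n => ∑ a : A n, |(f : ∀ _ : (Σ n, A n), ℝ) ⟨n, a⟩|) := by
    intro f
    have h := (summable_sigma_of_nonneg (fun p => abs_nonneg _)).1 (summable_l1 f)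
    simpa [tsum_fintype] using h.2
  have hfibG : ∀ f : l1 (Σ n, A n), Summable (fun n => ∑ b : B n, |G f ⟨n, b⟩|) := by
    intro f
    refine Summable.of_nonneg_of_le (fun n => Finset.sum_nonneg (fun _ _ => abs_nonneg _))
      (fun n => hT n (fun a => (f : ∀ _ : (Σ n, A n), ℝ) ⟨n, a⟩)) ((hfib f).mul_left M)
  have hsG : ∀ f : l1 (Σ n, A n), Summable (fun p => |G f p|) := by
    intro f
    refine (summable_sigma_of_nonneg (fun p => abs_nonneg _)).2 ⟨fun n => ?_, ?_⟩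
    · exact (hasSum_fintype _).summable
    · simpa [tsum_fintype] using hfibG f
  let L : l1 (Σ n, A n) →ₗ[ℝ] l1 (Σ n, B n) :=
    { toFun := fun f => ⟨G f, memlp1 _ (hsG f)⟩
      map_add' := by
        intro f g
        apply lp.ext
        funext p
        have h1 : (fun a => ((f + g : l1 (Σ n, A n)) : ∀ _ : (Σ n, A n), ℝ) ⟨p.1, a⟩) =
            (fun a => (f : ∀ _ : (Σ n, A n), ℝ) ⟨p.1, a⟩) +
              (fun a => (g : ∀ _ : (Σ n, A n), ℝ) ⟨p.1, a⟩) := by
          funext a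
          simp
        show T p.1 (fun a => ((f + g : l1 (Σ n, A n)) : ∀ _ : (Σ n, A n), ℝ) ⟨p.1, a⟩) p.2 = _
        rw [h1, map_add]
        rfl
      map_smul' := by
        intro c f
        apply lp.ext
        funext p
        have h1 : (fun a => ((c • f : l1 (Σ n, A n)) : ∀ _ : (Σ n, A n), ℝ) ⟨p.1, a⟩) =
            c • (fun a => (f : ∀ _ : (Σ n, A n), ℝ) ⟨p.1, a⟩) := by
          funext a
          simp
        show T p.1 (fun a => ((c • f : l1 (Σ n, A n)) : ∀ _ : (Σ n, A n), ℝ) ⟨p.1, a⟩) p.2 = _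
        rw [h1, map_smul]
        rfl }
  have hL : ∀ f, ‖L f‖ ≤ M * ‖f‖ := by
    intro f
    rw [norm_l1, norm_l1]
    have h1 : (∑' p, |G f p|) = ∑' n, ∑ b : B n, |G f ⟨n, b⟩| := by
      rw [Summable.tsum_sigma' (fun n => (hasSum_fintype _).summable) (hsG f)]
      simp [tsum_fintype]
    have h2 : (∑' p, |(f : ∀ _ : (Σ n, A n), ℝ) p|) =
        ∑' n, ∑ a : A n, |(f : ∀ _ : (Σ n, A n), ℝ) ⟨n, a⟩| := by
      rw [Summable.tsum_sigma' (fun n => (hasSum_fintype _).summable) (summable_l1 f)]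
      simp [tsum_fintype]
    show (∑' p, |G f p|) ≤ _
    rw [h1, h2, ← tsum_mul_left]
    exact Summable.tsum_le_tsum (fun n => hT n (fun a => (f : ∀ _ : (Σ n, A n), ℝ) ⟨n, a⟩)) (hfibG f) ((hfib f).mul_left M)
  refine ⟨L.mkContinuous M hL, ?_⟩
  intro f n b
  rfl

end Run7.h331.EX
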