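import Mathlib
import Pool.Agent.Run7.h35.EX.Stm
import Pool.Agent.Run7.h331.EX.BLK

set_option autoImplicit false
open scoped BigOperators

namespace Run7.h331.EX

open Run7.h35.EX

/-- the part of `f` in block `n` -/
def blk {A : ℕ → Type} (f : l1 (Σ n, A n)) (n : ℕ) : A n → ℝ :=
  fun a => (f : ∀ _ : (Σ n, A n), ℝ) ⟨n, a⟩

theorem blk_ext {A : ℕ → Type} {f g : l1 (Σ n, A n)} (h : ∀ n, blk f n = blk g n) : f = g := by
  apply lp.ext
  funext p
  exact congrFun (h p.1) p.2

theorem blk_sub {A : ℕ → Type} (f g : l1 (Σ n, A n)) (n : ℕ) :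
    blk (f - g) n = blk f n - blk g n := by
  funext a
  simp [blk]

theorem blk_zero {A : ℕ → Type} (n : ℕ) : blk (0 : l1 (Σ n, A n)) n = 0 := by
  funext a
  simp [blk]

theorem summable_blk {A : ℕ → Type} [∀ n, Fintype (A n)] (f : l1 (Σ n, A n)) :
    Summable (fun n => ∑ a : A n, |blk f n a|) := by
  have h := (summable_sigma_of_nonneg (fun p => abs_nonneg _)).1 (summable_l1 f)
  simpa [tsum_fintype, blk] using h.2

theorem norm_blk {A : ℕ → Type} [∀ n, Fintype (A n)] (f : l1 (Σ n, A n)) :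
    ‖f‖ = ∑' n, ∑ a : A n, |blk f n a| := by
  rw [norm_l1, Summable.tsum_sigma' (fun n => (hasSum_fintype _).summable) (summable_l1 f)]
  simp [tsum_fintype, blk]

theorem blk_le_norm {A : ℕ → Type} [∀ n, Fintype (A n)] (f : l1 (Σ n, A n)) (n : ℕ) :
    ∑ a : A n, |blk f n a| ≤ ‖f‖ := by
  rw [norm_blk]
  exact (summable_blk f).le_tsum n (fun j _ => Finset.sum_nonneg (fun _ _ => abs_nonneg _))

/-- glue blocks -/
theorem exists_glue {A : ℕ → Type} [∀ n, Fintype (A n)] (F : ∀ n, A n → ℝ)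
    (h : Summable (fun n => ∑ a : A n, |F n a|)) :
    ∃ f : l1 (Σ n, A n), ∀ n, blk f n = F n := by
  refine ⟨⟨fun p => F p.1 p.2, memlp1 _ ?_⟩, fun n => rfl⟩
  refine (summable_sigma_of_nonneg (fun p => abs_nonneg _)).2 ⟨fun n => ?_, ?_⟩
  · exact (hasSum_fintype _).summable
  · simpa [tsum_fintype] using h

/-- one block -/
theorem exists_single {A : ℕ → Type} [∀ n, Fintype (A n)] (n : ℕ) :
    ∃ E : (A n → ℝ) →ₗ[ℝ] l1 (Σ n, A n),
      (∀ g, blk (E g) n = g) ∧ (∀ g k, k ≠ n → blk (E g) k = 0) ∧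
      (∀ g, ‖E g‖ = ∑ a, |g a|) := by
  classical
  let F : (A n → ℝ) → ∀ k, A k → ℝ := fun g k =>
    if h : k = n then (fun a => g (h ▸ a)) else 0
  have hFn : ∀ g, F g n = g := by
    intro g
    simp [F]
  have hFk : ∀ g k, k ≠ n → F g k = 0 := by
    intro g k hk
    simp [F, hk]
  have hs : ∀ g, Summable (fun k => ∑ a : A k, |F g k a|) := by
    intro g
    apply summable_of_ne_finset_zero (s := {n})
    intro k hk
    rw [hFk g k (by simpa using hk)]
    simp
  choose e he using fun g => exists_glue (F g) (hs g)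
  refine ⟨{ toFun := e, map_add' := ?_, map_smul' := ?_ }, ?_, ?_, ?_⟩
  · intro g g'
    apply blk_ext
    intro k
    have h1 : blk (e g + e g') k = blk (e g) k + blk (e g') k := by
      funext a; simp [blk]
    rw [h1, he, he, he]
    by_cases hk : k = n
    · subst hk
      rw [hFn, hFn, hFn]
    · rw [hFk _ _ hk, hFk _ _ hk, hFk _ _ hk, add_zero]
  · intro c g
    apply blk_ext
    intro k
    have h1 : blk (c • e g) k = c • blk (e g) k := by
      funext a; simp [blk]
    rw [RingHom.id_apply, h1, he, he]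
    by_cases hk : k = n
    · subst hk
      rw [hFn, hFn]
    · rw [hFk _ _ hk, hFk _ _ hk, smul_zero]
  · intro g
    exact (he g n).trans (hFn g)
  · intro g k hk
    exact (he g k).trans (hFk g k hk)
  · intro g
    show ‖e g‖ = _
    rw [norm_blk, tsum_eq_single n]
    · rw [he, hFn]
    · intro k hk
      rw [he, hFk g k hk]
      simp

theorem closed_range_of_lift {E F : Type} [NormedAddCommGroup E] [NormedSpace ℝ E]
    [CompleteSpace E] [NormedAddCommGroup F] [NormedSpace ℝ F] (T : E →L[ℝ] F) (M : ℝ)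
    (hM : 0 ≤ M) (h : ∀ g, ∃ g', T g' = T g ∧ ‖g'‖ ≤ M * ‖T g‖) :
    IsClosed (LinearMap.range T.toLinearMap : Set F) := by
  let φ : NormedAddGroupHom E F :=
    T.toLinearMap.toAddMonoidHom.mkNormedAddGroupHom ‖T‖ T.le_opNorm
  have hφ : ∀ x, φ x = T x := fun x => rfl
  have hyp : φ.SurjectiveOnWith φ.range (M + 1) := by
    intro y hy
    obtain ⟨g, rfl⟩ := hy
    obtain ⟨g', h1, h2⟩ := h g
    refine ⟨g', h1, ?_⟩
    have h3 : ‖g'‖ ≤ M * ‖T g‖ := h2
    have h4 : (0 : ℝ) ≤ ‖T g‖ := norm_nonneg _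
    show ‖g'‖ ≤ (M + 1) * ‖T g‖
    nlinarith
  have h2 := controlled_closure_of_complete (by linarith : (0 : ℝ) < M + 1) one_pos hyp
  apply isClosed_of_closure_subset
  intro y hy
  have h3 : y ∈ φ.range.topologicalClosure := by
    have h4 : ((φ.range : AddSubgroup F) : Set F) = (LinearMap.range T.toLinearMap : Set F) := by
      ext z
      constructor
      · rintro ⟨g, rfl⟩
        exact ⟨g, rfl⟩
      · rintro ⟨g, rfl⟩
        exact ⟨g, rfl⟩
    rw [← h4, ← AddSubgroup.topologicalClosure_coe] at hy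
    exact hy
  obtain ⟨g, hg, -⟩ := h2 y h3
  exact ⟨g, hg⟩

theorem t_SEQ (hBLK : S_BLK) (hHOM : S_HOM) : S_SEQ := by
  intro A B D _ _ _ a b M0 ha0 hb0 hinj0 hba hex0 hspl
  obtain ⟨M, hM, ha, hb, hinj, hex⟩ : ∃ M : ℝ, 0 ≤ M ∧
      (∀ n f, ∑ k, |a n f k| ≤ M * ∑ k, |f k|) ∧ (∀ n f, ∑ k, |b n f k| ≤ M * ∑ k, |f k|) ∧
      (∀ n f, ∑ k, |f k| ≤ M * ∑ k, |a n f k|) ∧
      (∀ n g, ∃ f, ∑ k, |g k - a n f k| ≤ M * ∑ k, |b n g k|) := by
    have hle : ∀ t : ℝ, 0 ≤ t → M0 * t ≤ |M0| * t := fun t ht =>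
      mul_le_mul_of_nonneg_right (le_abs_self _) ht
    refine ⟨|M0|, abs_nonneg _, fun n f => (ha0 n f).trans (hle _ ?_),
      fun n f => (hb0 n f).trans (hle _ ?_), fun n f => (hinj0 n f).trans (hle _ ?_),
      fun n g => ?_⟩
    · exact Finset.sum_nonneg fun _ _ => abs_nonneg _
    · exact Finset.sum_nonneg fun _ _ => abs_nonneg _
    · exact Finset.sum_nonneg fun _ _ => abs_nonneg _
    · obtain ⟨f, hf⟩ := hex0 n g
      exact ⟨f, hf.trans (hle _ (Finset.sum_nonneg fun _ _ => abs_nonneg _))⟩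
  obtain ⟨Ta, hTa'⟩ := hBLK A B a M ha
  obtain ⟨Tb, hTb'⟩ := hBLK B D b M hb
  have hTa : ∀ f n, blk (Ta f) n = a n (blk f n) := fun f n => by
    funext k
    exact hTa' f n k
  have hTb : ∀ f n, blk (Tb f) n = b n (blk f n) := fun f n => by
    funext k
    exact hTb' f n k
  have hTab : ∀ f, Tb (Ta f) = 0 := by
    intro f
    apply blk_ext
    intro n
    rw [hTb, hTa, hba, blk_zero]
  have hnorm : ∀ f, ‖f‖ ≤ M * ‖Ta f‖ := by
    intro f
    rw [norm_blk, norm_blk, ← tsum_mul_left]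
    refine Summable.tsum_le_tsum (fun n => ?_) (summable_blk f)
      ((summable_blk (Ta f)).mul_left M)
    rw [hTa]
    exact hinj n _
  have hTainj : Function.Injective Ta := by
    rw [injective_iff_map_eq_zero]
    intro f hf
    have h := hnorm f
    rw [hf, norm_zero, mul_zero] at h
    exact norm_le_zero_iff.1 h
  have hlift : ∀ g, ∃ f, ‖g - Ta f‖ ≤ M * ‖Tb g‖ := by
    intro g
    choose F hF using fun n => hex n (blk g n)
    have hs1 : Summable fun n => ∑ k, |F n k| := by
      refine Summable.of_nonneg_of_le (fun n => Finset.sum_nonneg fun _ _ => abs_nonneg _)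
        (fun n => ?_) (((summable_blk g).add ((summable_blk (Tb g)).mul_left M)).mul_left M)
      refine (hinj n (F n)).trans (mul_le_mul_of_nonneg_left ?_ hM)
      have h1 : ∀ k, |a n (F n) k| ≤ |blk g n k| + |blk g n k - a n (F n) k| := by
        intro k
        have h2 : a n (F n) k = blk g n k - (blk g n k - a n (F n) k) := by ring
        calc |a n (F n) k| = |blk g n k - (blk g n k - a n (F n) k)| := by rw [← h2]
          _ ≤ _ := abs_sub _ _
      calc ∑ k, |a n (F n) k| ≤ ∑ k, (|blk g n k| + |blk g n k - a n (F n) k|) :=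
            Finset.sum_le_sum fun k _ => h1 k
        _ = ∑ k, |blk g n k| + ∑ k, |blk g n k - a n (F n) k| := Finset.sum_add_distrib
        _ ≤ ∑ k, |blk g n k| + M * ∑ k, |blk (Tb g) n k| := by
            rw [hTb]
            exact add_le_add le_rfl (hF n)
    obtain ⟨f, hf⟩ := exists_glue F hs1
    refine ⟨f, ?_⟩
    rw [norm_blk, norm_blk, ← tsum_mul_left]
    refine Summable.tsum_le_tsum (fun n => ?_) (summable_blk _)
      ((summable_blk (Tb g)).mul_left M)
    rw [hTb]
    have h1 : blk (g - Ta f) n = fun k => blk g n k - a n (F n) k := by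
      rw [blk_sub, hTa, hf]
      rfl
    rw [h1]
    exact hF n
  have hexact : ∀ g, Tb g = 0 → ∃ f, Ta f = g := by
    intro g hg
    obtain ⟨f, hf⟩ := hlift g
    refine ⟨f, ?_⟩
    rw [hg, norm_zero, mul_zero] at hf
    exact (sub_eq_zero.1 (norm_le_zero_iff.1 hf)).symm
  have hclosed : IsClosed (LinearMap.range Tb.toLinearMap : Set (l1 (Σ n, D n))) := by
    apply closed_range_of_lift Tb M hM
    intro g
    obtain ⟨f, hf⟩ := hlift g
    refine ⟨g - Ta f, ?_, hf⟩
    rw [map_sub, hTab, sub_zero]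
  have hker : LinearMap.range Ta.toLinearMap = LinearMap.ker Tb.toLinearMap := by
    ext g
    constructor
    · rintro ⟨f, rfl⟩
      exact hTab f
    · intro hg
      obtain ⟨f, hf⟩ := hexact g hg
      exact ⟨f, hf⟩
  have : IsClosed (LinearMap.range Tb.toLinearMap : Set (l1 (Σ n, D n))) := hclosed
  -- no resolution of length one
  have hno1 : ¬ HasRes 1 (l1 (Σ n, D n) ⧸ LinearMap.range Tb.toLinearMap) := by
    rintro ⟨S', q, hq, T, hT⟩
    obtain ⟨h, hh⟩ := hHOM _ _ _ Ta Tb hTainj hker hclosed ⟨S', q, hq, T, hT⟩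
    obtain ⟨n, hn⟩ := exists_nat_gt ‖h‖
    obtain ⟨EA, hEA1, hEA2, hEA3⟩ := exists_single (A := A) n
    obtain ⟨EB, hEB1, hEB2, hEB3⟩ := exists_single (A := B) n
    have hcomm : ∀ f, EB (a n f) = Ta (EA f) := by
      intro f
      apply blk_ext
      intro k
      rw [hTa]
      by_cases hk : k = n
      · subst hk
        rw [hEB1, hEA1]
      · rw [hEB2 _ _ hk, hEA2 _ _ hk, map_zero]
    let S : (B n → ℝ) →ₗ[ℝ] (A n → ℝ) :=
      { toFun := fun g => blk (h (EB g)) n
        map_add' := by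
          intro g g'
          funext k
          simp [blk]
        map_smul' := by
          intro c g
          funext k
          simp [blk] }
    have hS : ∀ g, S g = blk (h (EB g)) n := fun g => rfl
    have h1 : ∀ f, S (a n f) = f := by
      intro f
      rw [hS, hcomm]
      have h2 : h (Ta (EA f)) = EA f := by
        have h3 := congrArg (fun T : l1 (Σ n, A n) →L[ℝ] l1 (Σ n, A n) => T (EA f)) hh
        simpa using h3
      rw [h2, hEA1]
    have h2 := hspl n S h1 ‖h‖ (by
      intro g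
      rw [hS]
      refine (blk_le_norm _ n).trans ((h.le_opNorm _).trans ?_)
      rw [hEB3])
    linarith
  refine ⟨l1 (Σ n, D n) ⧸ LinearMap.range Tb.toLinearMap, inferInstance, inferInstance,
    inferInstance, ?_, hno1, ?_⟩
  · have hmem : ∀ g, Tb g ∈ LinearMap.ker
        ((LinearMap.range Tb.toLinearMap).mkQL).toLinearMap := fun g =>
      (Submodule.Quotient.mk_eq_zero _).2 ⟨g, rfl⟩
    refine ⟨(Σ n, D n), (LinearMap.range Tb.toLinearMap).mkQL,
      Submodule.mkQ_surjective _, (Σ n, B n), Tb.codRestrict _ hmem, ?_, ?_⟩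
    · rintro ⟨y, hy⟩
      obtain ⟨g, hg⟩ := (Submodule.Quotient.mk_eq_zero _).1 hy
      exact ⟨g, Subtype.ext hg⟩
    · have hmem2 : ∀ f, Ta f ∈ LinearMap.ker (Tb.codRestrict _ hmem).toLinearMap := by
        intro f
        exact Subtype.ext (hTab f)
      have hcl : IsClosed (LinearMap.ker (Tb.codRestrict _ hmem).toLinearMap :
          Set (l1 (Σ n, B n))) := (Tb.codRestrict _ hmem).isClosed_ker
      have : CompleteSpace (LinearMap.ker (Tb.codRestrict _ hmem).toLinearMap) :=
        hcl.completeSpace_coe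
      refine ⟨(Σ n, A n), ⟨(ContinuousLinearEquiv.ofBijective
        (Ta.codRestrict (LinearMap.ker (Tb.codRestrict _ hmem).toLinearMap) hmem2) ?_ ?_).symm⟩⟩
      · rw [LinearMap.ker_eq_bot]
        intro f f' hff
        exact hTainj (congrArg Subtype.val hff)
      · rw [LinearMap.range_eq_top]
        rintro ⟨g, hg⟩
        obtain ⟨f, hf⟩ := hexact g (congrArg Subtype.val hg)
        exact ⟨f, Subtype.ext hf⟩
  · rintro ⟨S, ⟨e⟩⟩
    apply hno1
    refine ⟨S, e.symm.toContinuousLinearMap, e.symm.surjective, Empty, ⟨?_⟩⟩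
    haveI s1 : Subsingleton (l1 Empty) := ⟨fun f g => by
      apply lp.ext
      funext p
      exact p.elim⟩
    haveI s2 : Subsingleton (LinearMap.ker (e.symm.toContinuousLinearMap).toLinearMap) := by
      constructor
      rintro ⟨x, hx⟩ ⟨y, hy⟩
      have hx' : e.symm x = 0 := hx
      have hy' : e.symm y = 0 := hy
      apply Subtype.ext
      exact e.symm.injective (hx'.trans hy'.symm)
    exact ContinuousLinearEquiv.equivOfInverse 0 0 (fun _ => Subsingleton.elim _ _)
      (fun _ => Subsingleton.elim _ _)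

end Run7.h331.EX
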